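import Pool.Agent.X232.RR.Mih

/-! Computability, and the transfer to the alphabet `Fin k`. -/

set_option autoImplicit false

namespace Pool.Agent.X232.RR

lemma computablePred_comp {α β : Type} [Primcodable α] [Primcodable β] {p : β → Prop} {f : α → β}
    (hp : ComputablePred p) (hf : Computable f) : ComputablePred (fun a => p (f a)) := by
  obtain ⟨g, hg, rfl⟩ := ComputablePred.computable_iff.1 hp
  exact ComputablePred.computable_iff.2 ⟨fun a => g (f a), hg.comp hf, rfl⟩

lemma hom_flatMap {k m : ℕ} (κ : FreeGroup (Fin k) →* FreeGroup (Fin m))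
    (w : List (Fin k × Bool)) : κ (FreeGroup.mk w) =
      FreeGroup.mk (w.flatMap fun z => (κ (FreeGroup.mk [z])).toWord) := by
  induction w with
  | nil => exact map_one κ
  | cons z w ih =>
    have e : FreeGroup.mk (z :: w) = FreeGroup.mk [z] * FreeGroup.mk w := mk_append [z] w
    rw [List.flatMap_cons, mk_append, FreeGroup.mk_toWord, ← ih, e, map_mul]

lemma prim_flatMap {α : Type} [Primcodable α] {k : ℕ} (f : Fin k × Bool → List α) :
    Primrec (fun w : List (Fin k × Bool) => w.flatMap f) :=
  Primrec.list_flatMap Primrec.id ((Primrec.dom_finite f).comp Primrec.snd)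

lemma prim_hom {k m : ℕ} (κ : FreeGroup (Fin k) →* FreeGroup (Fin m)) :
    PrimrecPred (fun w : List (Fin k × Bool) => κ (FreeGroup.mk w) = 1) := by
  have h1 : Primrec (fun w : List (Fin k × Bool) =>
      FreeGroup.reduce (w.flatMap fun z => (κ (FreeGroup.mk [z])).toWord)) :=
    Pool.Agent.H715R3.Medv.reduce_primrec.comp (prim_flatMap _)
  refine (PrimrecRel.comp Primrec.eq h1 (Primrec.const [])).of_eq ?_
  intro w
  rw [hom_flatMap, ← FreeGroup.toWord_mk, FreeGroup.toWord_eq_nil_iff]

lemma prim_int {k : ℕ} (κ : FreeGroup (Fin k) →* Multiplicative ℤ) :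
    PrimrecPred (fun w : List (Fin k × Bool) => κ (FreeGroup.mk w) = 1) := by
  let f : Fin k × Bool → List Unit := fun z =>
    List.replicate (Multiplicative.toAdd (κ (FreeGroup.mk [z]))).toNat ()
  let g : Fin k × Bool → List Unit := fun z =>
    List.replicate (-(Multiplicative.toAdd (κ (FreeGroup.mk [z])))).toNat ()
  have h1 : Primrec (fun w : List (Fin k × Bool) => (w.flatMap f).length) :=
    Primrec.list_length.comp (prim_flatMap f)
  have h2 : Primrec (fun w : List (Fin k × Bool) => (w.flatMap g).length) :=
    Primrec.list_length.comp (prim_flatMap g)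
  refine (PrimrecRel.comp Primrec.eq h1 h2).of_eq ?_
  intro w
  have h : ∀ w : List (Fin k × Bool), Multiplicative.toAdd (κ (FreeGroup.mk w)) =
      ((w.flatMap f).length : ℤ) - ((w.flatMap g).length : ℤ) := by
    intro w
    induction w with
    | nil =>
      have : κ (FreeGroup.mk []) = 1 := map_one κ
      rw [this]; simp
    | cons z w ih =>
      have e : FreeGroup.mk (z :: w) = FreeGroup.mk [z] * FreeGroup.mk w := mk_append [z] w
      rw [e, map_mul, toAdd_mul, ih, List.flatMap_cons, List.flatMap_cons, List.length_append,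
        List.length_append]
      simp only [f, g, List.length_replicate]
      push_cast
      omega
  rw [← toAdd_eq_zero, h]
  omega

variable {m : ℕ} (R : Finset (FreeGroup (Fin m)))

/-- the number of letters -/
noncomputable def kk : ℕ := Nat.card (Y R)

/-- numbering of the letters -/
noncomputable def ee : Y R ≃ Fin (kk R) := Finite.equivFin (Y R)

/-- the values of the letters -/
noncomputable def phF : Fin (kk R) → GG m := fun i => ph R ((ee R).symm i)

/-- the relations over `Fin k` -/
noncomputable def relF : Set (List (Fin (kk R)) × List (Fin (kk R))) :=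
  (fun p : List (Y R) × List (Y R) => (p.1.map (ee R), p.2.map (ee R))) '' relY R

lemma relF_finite : (relF R).Finite := (relY_finite R).image _

lemma phF_map (a : List (Y R)) : (a.map (ee R)).map (phF R) = a.map (ph R) := by
  rw [List.map_map]
  refine List.map_congr_left fun x _ => ?_
  simp [phF]

lemma phF_map' (a : List (Fin (kk R))) : a.map (phF R) = (a.map (ee R).symm).map (ph R) := by
  rw [List.map_map]; rfl

lemma soundF : ∀ p ∈ relF R, (p.1.map (phF R)).prod = (p.2.map (phF R)).prod := by
  rintro _ ⟨p, hp, rfl⟩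
  show ((p.1.map (ee R)).map (phF R)).prod = ((p.2.map (ee R)).map (phF R)).prod
  rw [phF_map, phF_map]
  exact sound R p hp

lemma completeF : Complete (phF R) (relF R) := by
  intro M _ f hf hrel a b hab
  have h := complete R M (fun y => f (ee R y)) (fun y => hf _) ?_ (a.map (ee R).symm)
    (b.map (ee R).symm) (by rw [← phF_map', ← phF_map']; exact hab)
  · simpa [List.map_map, Function.comp_def] using h
  · intro p hp
    have := hrel _ ⟨p, hp, rfl⟩
    simpa [List.map_map, Function.comp_def] using this

lemma revF (a b : List (Fin (kk R))) : ∃ c d : List (Fin (kk R)),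
    ((a ++ c).map (phF R)).prod = ((b ++ d).map (phF R)).prod := by
  obtain ⟨c, d, h⟩ := rev R (a.map (ee R).symm) (b.map (ee R).symm)
  refine ⟨c.map (ee R), d.map (ee R), ?_⟩
  rw [List.map_append, List.map_append, phF_map, phF_map, phF_map', phF_map', ← List.map_append,
    ← List.map_append, h]

lemma posVals_F : posVals (phF R) = posVals (ph R) := by
  ext g
  constructor
  · rintro ⟨a, ha⟩
    exact ⟨a.map (ee R).symm, by rw [← phF_map']; exact ha⟩
  · rintro ⟨a, ha⟩
    exact ⟨a.map (ee R), by rw [phF_map]; exact ha⟩

lemma decF : ComputablePred (fun w : List (Fin (kk R) × Bool) => gv (phF R) (FreeGroup.mk w) = 1) := by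
  have h1 := prim_hom (((MonoidHom.fst _ _).comp (MonoidHom.fst _ _)).comp (gv (phF R)))
  have h2 := prim_hom (((MonoidHom.snd _ _).comp (MonoidHom.fst _ _)).comp (gv (phF R)))
  have h3 := prim_int ((MonoidHom.snd _ _).comp (gv (phF R)))
  refine (PrimrecPred.computablePred ((h1.and h2).and h3)).of_eq ?_
  intro w
  simp only [MonoidHom.comp_apply, MonoidHom.coe_fst, MonoidHom.coe_snd]
  rw [Prod.ext_iff, Prod.ext_iff]
  rfl

/-- the positive word for a word of the second factor -/
noncomputable def pw (w : List (Fin m × Bool)) : List (Fin (kk R)) :=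
  w.map fun p => ee R (yy R (true, p))

/-- a power of `t` -/
noncomputable def tw (w : List (Fin m × Bool)) : List (Fin (kk R)) := w.map fun _ => ee R none

lemma pw_val (w : List (Fin m × Bool)) : ((pw R w).map (phF R)).prod =
    ((1, FreeGroup.mk w), Multiplicative.ofAdd (w.length : ℤ)) := by
  have e : pw R w = ((w.map fun p => (true, p)).map (yy R)).map (ee R) := by
    rw [pw, List.map_map, List.map_map]; rfl
  rw [e, phF_map, prod_ph_yy, prod_sg_map]
  simp

lemma tw_val (w : List (Fin m × Bool)) : ((tw R w).map (phF R)).prod =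
    (1, Multiplicative.ofAdd (w.length : ℤ)) := by
  have e : tw R w = (List.replicate w.length none).map (ee R) := by
    rw [tw, List.map_replicate, List.map_const']
  rw [e, phF_map, prod_ph_rep]

lemma pt_val (w : List (Fin m × Bool)) :
    ((pw R w).map (phF R)).prod * (((tw R w).map (phF R)).prod)⁻¹ = ((1, FreeGroup.mk w), 1) := by
  rw [pw_val, tw_val]
  refine Prod.ext ?_ ?_
  · simp
  · simp

lemma mem_iff (w : List (Fin m × Bool)) :
    ((pw R w).map (phF R)).prod * (((tw R w).map (phF R)).prod)⁻¹ ∈ posVals (phF R) ↔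
      FreeGroup.mk w ∈ Subgroup.normalClosure (R : Set (FreeGroup (Fin m))) := by
  rw [pt_val, posVals_F, mem_posVals_iff]

lemma prim_pw : Primrec (pw R) :=
  Primrec.list_map Primrec.id ((Primrec.dom_finite (fun p : Fin m × Bool =>
    ee R (yy R (true, p)))).comp Primrec.snd)

lemma prim_tw : Primrec (tw R) :=
  Primrec.list_map Primrec.id (Primrec.const _)

lemma prim_pos {k : ℕ} : Primrec (pos : List (Fin k) → List (Fin k × Bool)) :=
  Primrec.list_map Primrec.id (Primrec.snd.pair (Primrec.const true))

lemma prim_inv {k : ℕ} : Primrec (FreeGroup.invRev : List (Fin k × Bool) → List (Fin k × Bool)) :=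
  Pool.Agent.H715R3.Medv.winv_primrec

end Pool.Agent.X232.RR
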