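import Mathlib

/-!
General facts about special inverse monoids given by positive relations: Vagner's congruence,
right units, and the comparison with a group in which the positive words embed.
-/

set_option autoImplicit false

namespace Pool.Agent.X232.RR

/-- The defining pairs of the inverse monoid `Inv⟨X | r = 1 (r ∈ R)⟩` as a quotient of the free
monoid on the letters `(x, true) = x` and `(x, false) = x⁻¹`: `u u⁻¹ u = u`,
`u u⁻¹ v v⁻¹ = v v⁻¹ u u⁻¹` and `r = 1`. Here `FreeGroup.invRev u` is the formal inverse of the
word `u` (reverse it and invert each letter). -/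
inductive InvRel {X : Type} (R : Set (List (X × Bool))) :
    FreeMonoid (X × Bool) → FreeMonoid (X × Bool) → Prop
  | reg (u : List (X × Bool)) :
      InvRel R (FreeMonoid.ofList (u ++ FreeGroup.invRev u ++ u)) (FreeMonoid.ofList u)
  | comm (u v : List (X × Bool)) :
      InvRel R (FreeMonoid.ofList ((u ++ FreeGroup.invRev u) ++ (v ++ FreeGroup.invRev v)))
        (FreeMonoid.ofList ((v ++ FreeGroup.invRev v) ++ (u ++ FreeGroup.invRev u)))
  | rel (r : List (X × Bool)) : r ∈ R → InvRel R (FreeMonoid.ofList r) 1

/-- The special inverse monoid `Inv⟨X | r = 1 (r ∈ R)⟩`. -/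
abbrev InvMon {X : Type} (R : Set (List (X × Bool))) : Type := (conGen (InvRel R)).Quotient

/-- The element of `Inv⟨X | r = 1 (r ∈ R)⟩` represented by a word. -/
def sval {X : Type} (R : Set (List (X × Bool))) (w : List (X × Bool)) : InvMon R :=
  ((FreeMonoid.ofList w : FreeMonoid (X × Bool)) : (conGen (InvRel R)).Quotient)

/-- The maximal group image `Gp⟨X | r = 1 (r ∈ R)⟩`. -/
abbrev MaxGroup {X : Type} (R : Set (List (X × Bool))) : Type :=
  PresentedGroup (FreeGroup.mk '' R)

/-- The element of the maximal group image represented by a word. -/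
def grpVal {X : Type} (R : Set (List (X × Bool))) (w : List (X × Bool)) : MaxGroup R :=
  PresentedGroup.mk (FreeGroup.mk '' R) (FreeGroup.mk w)

/-- `S` is `E`-unitary: if `e ≤ s` in the natural partial order (that is, `e = f s` for some
idempotent `f`) and `e` is idempotent then `s` is idempotent. -/
def EUnitary (S : Type) [Monoid S] : Prop :=
  ∀ e s : S, e * e = e → (∃ f : S, f * f = f ∧ e = f * s) → s * s = s

/-- The prefix monoid: the image in the maximal group image of the `ℛ`-class of `1`, that is, of
the right units of the inverse monoid. -/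
def prefixMonoid {X : Type} (R : Set (List (X × Bool))) : Set (MaxGroup R) :=
  {g | ∃ w : List (X × Bool), (∃ s' : InvMon R, sval R w * s' = 1) ∧ grpVal R w = g}

section basic

variable {X : Type} {R : Set (List (X × Bool))}

lemma sval_append (u v : List (X × Bool)) : sval R (u ++ v) = sval R u * sval R v := rfl

lemma sval_nil : sval R ([] : List (X × Bool)) = 1 := rfl

lemma sval_surj (s : InvMon R) : ∃ w, sval R w = s := by
  obtain ⟨w, rfl⟩ := Quotient.exists_rep s
  exact ⟨w, rfl⟩

lemma sval_reg (u : List (X × Bool)) :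
    sval R u * sval R (FreeGroup.invRev u) * sval R u = sval R u := by
  rw [← sval_append, ← sval_append]
  exact (Con.eq _).2 (ConGen.Rel.of _ _ (InvRel.reg u))

lemma sval_comm (u v : List (X × Bool)) :
    sval R u * sval R (FreeGroup.invRev u) * (sval R v * sval R (FreeGroup.invRev v)) =
      sval R v * sval R (FreeGroup.invRev v) * (sval R u * sval R (FreeGroup.invRev u)) := by
  simp only [← sval_append]
  exact (Con.eq _).2 (ConGen.Rel.of _ _ (InvRel.comm u v))

lemma sval_rel {r : List (X × Bool)} (hr : r ∈ R) : sval R r = 1 :=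
  (Con.eq _).2 (ConGen.Rel.of _ _ (InvRel.rel r hr))

lemma mk_append {α : Type} (u v : List (α × Bool)) :
    FreeGroup.mk (u ++ v) = FreeGroup.mk u * FreeGroup.mk v := FreeGroup.mul_mk.symm

lemma mk_invRev {α : Type} (u : List (α × Bool)) :
    FreeGroup.mk (FreeGroup.invRev u) = (FreeGroup.mk u)⁻¹ := FreeGroup.inv_mk.symm

/-- a homomorphism to a group killing the relators -/
lemma hom_eq {K : Type} [Group K] (κ : FreeGroup X →* K)
    (hκ : ∀ r ∈ R, κ (FreeGroup.mk r) = 1) {w w' : List (X × Bool)}
    (h : sval R w = sval R w') : κ (FreeGroup.mk w) = κ (FreeGroup.mk w') := by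
  let c : Con (FreeMonoid (X × Bool)) :=
    { r := fun a b => κ (FreeGroup.mk a.toList) = κ (FreeGroup.mk b.toList)
      iseqv := ⟨fun _ => rfl, fun h => h.symm, fun h h' => h.trans h'⟩
      mul' := by
        intro a b a' b' h h'
        simp only [FreeMonoid.toList_mul, mk_append, map_mul] at *
        rw [h, h'] }
  have hle : conGen (InvRel R) ≤ c := by
    rw [Con.conGen_le]
    intro a b hab
    cases hab with
    | reg u =>
      show κ (FreeGroup.mk (u ++ FreeGroup.invRev u ++ u)) = κ (FreeGroup.mk u)
      simp only [mk_append, mk_invRev, mul_inv_cancel, one_mul]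
    | comm u v =>
      show κ (FreeGroup.mk ((u ++ FreeGroup.invRev u) ++ (v ++ FreeGroup.invRev v))) =
        κ (FreeGroup.mk ((v ++ FreeGroup.invRev v) ++ (u ++ FreeGroup.invRev u)))
      simp only [mk_append, mk_invRev, mul_inv_cancel, one_mul]
    | rel r hr =>
      show κ (FreeGroup.mk r) = κ (FreeGroup.mk [])
      rw [hκ r hr]
      exact (map_one κ).symm
  exact hle ((Con.eq _).1 h)

lemma grpVal_append (u v : List (X × Bool)) : grpVal R (u ++ v) = grpVal R u * grpVal R v := by
  simp only [grpVal, mk_append, map_mul]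

lemma grpVal_invRev (u : List (X × Bool)) : grpVal R (FreeGroup.invRev u) = (grpVal R u)⁻¹ := by
  simp only [grpVal, mk_invRev, map_inv]

lemma grpVal_eq {w w' : List (X × Bool)} (h : sval R w = sval R w') :
    grpVal R w = grpVal R w' := by
  refine hom_eq (PresentedGroup.mk (FreeGroup.mk '' R)) ?_ h
  intro r hr
  exact PresentedGroup.one_of_mem (Set.mem_image_of_mem _ hr)

end basic

/-! ### Positive words -/

/-- A positive word. -/
def pos {X : Type} (a : List X) : List (X × Bool) := a.map fun x => (x, true)

/-- The relators `x x⁻¹` and `u v⁻¹` for the positive relations `u = v`. -/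
def relators {X : Type} (rel : Set (List X × List X)) : Set (List (X × Bool)) :=
  {r | (∃ x, r = [(x, true), (x, false)]) ∨
    ∃ p ∈ rel, r = pos p.1 ++ FreeGroup.invRev (pos p.2)}

section positive

variable {X : Type} {rel : Set (List X × List X)}

lemma pos_append (a b : List X) : pos (a ++ b) = pos a ++ pos b := by simp [pos]

lemma invRev_append {α : Type} (u v : List (α × Bool)) :
    FreeGroup.invRev (u ++ v) = FreeGroup.invRev v ++ FreeGroup.invRev u := by
  simp [FreeGroup.invRev]

lemma invRev_invRev' {α : Type} (u : List (α × Bool)) :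
    FreeGroup.invRev (FreeGroup.invRev u) = u := FreeGroup.invRev_invRev

lemma letter_unit (x : X) : sval (relators rel) [(x, true)] * sval (relators rel) [(x, false)] = 1 := by
  rw [← sval_append]
  exact sval_rel (Or.inl ⟨x, rfl⟩)

lemma pos_unit (a : List X) :
    sval (relators rel) (pos a) * sval (relators rel) (FreeGroup.invRev (pos a)) = 1 := by
  induction a with
  | nil => rfl
  | cons x a ih =>
    have e1 : pos (x :: a) = [(x, true)] ++ pos a := rfl
    have e2 : FreeGroup.invRev (pos (x :: a)) = FreeGroup.invRev (pos a) ++ [(x, false)] := by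
      rw [e1, invRev_append]; rfl
    rw [e2, e1, sval_append, sval_append]
    calc _ = sval (relators rel) [(x, true)] * (sval (relators rel) (pos a) *
        sval (relators rel) (FreeGroup.invRev (pos a))) * sval (relators rel) [(x, false)] := by
          simp only [mul_assoc]
      _ = 1 := by rw [ih, mul_one, letter_unit]

lemma pos_rel {p : List X × List X} (hp : p ∈ rel) :
    sval (relators rel) (pos p.1) = sval (relators rel) (pos p.2) := by
  have h1 : sval (relators rel) (pos p.1) * sval (relators rel) (FreeGroup.invRev (pos p.2)) = 1 := by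
    rw [← sval_append]
    exact sval_rel (Or.inr ⟨p, hp, rfl⟩)
  -- write `A, A', B, B'`
  set A := sval (relators rel) (pos p.1) with hA
  set B := sval (relators rel) (pos p.2) with hB
  set A' := sval (relators rel) (FreeGroup.invRev (pos p.1)) with hA'
  set B' := sval (relators rel) (FreeGroup.invRev (pos p.2)) with hB'
  have hAA : A * A' = 1 := pos_unit p.1
  have hBB : B * B' = 1 := pos_unit p.2
  -- `A'A` and `B'B` commute
  have hc : A' * A * (B' * B) = B' * B * (A' * A) := by
    have := sval_comm (R := relators rel) (FreeGroup.invRev (pos p.1)) (FreeGroup.invRev (pos p.2))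
    rwa [invRev_invRev', invRev_invRev'] at this
  -- `A (A'A) (B'B) = A B' B = B` and `A (B'B)(A'A) = B A' A`
  have h2 : B = B * A' * A := by
    calc B = (A * B') * B := by rw [h1, one_mul]
      _ = A * A' * A * B' * B := by rw [hAA, one_mul]
      _ = A * (A' * A * (B' * B)) := by simp only [mul_assoc]
      _ = A * (B' * B * (A' * A)) := by rw [hc]
      _ = (A * B') * B * A' * A := by simp only [mul_assoc]
      _ = B * A' * A := by rw [h1, one_mul]
  -- `B A' = 1`
  have h3 : B * A' = 1 := by
    calc B * A' = B * A' * (A * B') := by rw [h1, mul_one]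
      _ = (B * A' * A) * B' := by simp only [mul_assoc]
      _ = 1 := by rw [← h2, hBB]
  rw [h2, h3, one_mul]

lemma sval_pos_prod (a : List X) :
    sval (relators rel) (pos a) = (a.map fun x => sval (relators rel) [(x, true)]).prod := by
  induction a with
  | nil => rfl
  | cons x a ih =>
    rw [List.map_cons, List.prod_cons, ← ih, ← sval_append]; rfl

end positive

/-- The positive relations are complete: in every monoid in which they hold and in which the
generators are right invertible, two words with the same value in `G` have the same value. -/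
def Complete {X G : Type} [Group G] (φ : X → G) (rel : Set (List X × List X)) : Prop :=
  ∀ (M : Type) [Monoid M] (f : X → M), (∀ x, ∃ y, f x * y = 1) →
    (∀ p ∈ rel, (p.1.map f).prod = (p.2.map f).prod) →
    ∀ a b : List X, (a.map φ).prod = (b.map φ).prod → (a.map f).prod = (b.map f).prod

section main

variable {X G : Type} [Group G] {φ : X → G} {rel : Set (List X × List X)}

lemma sval_pos_eq (h2 : Complete φ rel) {a b : List X} (h : (a.map φ).prod = (b.map φ).prod) :
    sval (relators rel) (pos a) = sval (relators rel) (pos b) := by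
  rw [sval_pos_prod, sval_pos_prod]
  refine h2 (InvMon (relators rel)) (fun x => sval (relators rel) [(x, true)])
    (fun x => ⟨_, letter_unit x⟩) ?_ a b h
  intro p hp
  rw [← sval_pos_prod, ← sval_pos_prod]
  exact pos_rel hp

/-- The value of a word in `G`. -/
def gv (φ : X → G) : FreeGroup X →* G := FreeGroup.lift φ

lemma gv_pos (a : List X) : gv φ (FreeGroup.mk (pos a)) = (a.map φ).prod := by
  rw [gv, FreeGroup.lift_mk, pos, List.map_map]
  rfl

lemma gv_rel (h1 : ∀ p ∈ rel, (p.1.map φ).prod = (p.2.map φ).prod) :
    ∀ r ∈ relators rel, gv φ (FreeGroup.mk r) = 1 := by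
  rintro r (⟨x, rfl⟩ | ⟨p, hp, rfl⟩)
  · simp [gv]
  · rw [mk_append, mk_invRev, map_mul, map_inv, gv_pos, gv_pos, h1 p hp, mul_inv_cancel]

/-- The path of the word `w` starting at `g` stays in `P`. -/
def D (φ : X → G) (P : Set G) : List (X × Bool) → G → Prop
  | [], g => g ∈ P
  | z :: w, g => g ∈ P ∧ D φ P w (g * gv φ (FreeGroup.mk [z]))

variable {P : Set G}

lemma D_append (u v : List (X × Bool)) (g : G) :
    D φ P (u ++ v) g ↔ D φ P u g ∧ D φ P v (g * gv φ (FreeGroup.mk u)) := by
  induction u generalizing g with
  | nil =>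
    simp only [List.nil_append, D]
    have : gv φ (FreeGroup.mk []) = 1 := map_one _
    rw [this, mul_one]
    refine ⟨fun h => ⟨?_, h⟩, fun h => h.2⟩
    cases v with
    | nil => exact h
    | cons z v => exact h.1
  | cons z u ih =>
    have e : FreeGroup.mk (z :: u) = FreeGroup.mk [z] * FreeGroup.mk u := mk_append [z] u
    rw [List.cons_append, D, D, ih, e, map_mul, ← mul_assoc, and_assoc]

lemma D_head {u : List (X × Bool)} {g : G} (h : D φ P u g) : g ∈ P := by
  cases u with
  | nil => exact h
  | cons z u => exact h.1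

lemma D_last {u : List (X × Bool)} {g : G} (h : D φ P u g) : g * gv φ (FreeGroup.mk u) ∈ P := by
  have := (D_append (φ := φ) (P := P) u [] g).1 (by simpa using h)
  exact this.2

lemma D_invRev (u : List (X × Bool)) (g : G) :
    D φ P (FreeGroup.invRev u) (g * gv φ (FreeGroup.mk u)) ↔ D φ P u g := by
  induction u generalizing g with
  | nil =>
    have : gv φ (FreeGroup.mk []) = 1 := map_one _
    rw [this, mul_one]; rfl
  | cons z u ih =>
    have e : FreeGroup.mk (z :: u) = FreeGroup.mk [z] * FreeGroup.mk u := mk_append [z] u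
    have e2 : FreeGroup.invRev (z :: u) = FreeGroup.invRev u ++ FreeGroup.invRev [z] :=
      invRev_append [z] u
    rw [e2, e, map_mul, ← mul_assoc, D_append, ih, mk_invRev, map_inv, mul_inv_cancel_right]
    have e3 : FreeGroup.invRev [z] = [(z.1, !z.2)] := rfl
    rw [e3]
    simp only [D]
    have e4 : FreeGroup.mk [(z.1, !z.2)] = (FreeGroup.mk [z])⁻¹ := by
      rw [← e3, mk_invRev]
    rw [e4, map_inv, mul_inv_cancel_right]
    exact ⟨fun h => ⟨h.2.2, h.1⟩, fun h => ⟨h.2, D_head h.2, h.1⟩⟩

lemma D_pos (hP : ∀ g ∈ P, ∀ x, g * φ x ∈ P) (a : List X) (g : G) : D φ P (pos a) g ↔ g ∈ P := by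
  induction a generalizing g with
  | nil => rfl
  | cons x a ih =>
    have e1 : pos (x :: a) = (x, true) :: pos a := rfl
    rw [e1, D, ih]
    have : gv φ (FreeGroup.mk [(x, true)]) = φ x := by simp [gv]
    rw [this]
    exact ⟨fun h => h.1, fun h => ⟨h, hP g h x⟩⟩

lemma D_eq (h1 : ∀ p ∈ rel, (p.1.map φ).prod = (p.2.map φ).prod)
    (hP : ∀ g ∈ P, ∀ x, g * φ x ∈ P) {w w' : List (X × Bool)}
    (h : sval (relators rel) w = sval (relators rel) w') (g : G) : D φ P w g ↔ D φ P w' g := by
  let c : Con (FreeMonoid (X × Bool)) :=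
    { r := fun a b => gv φ (FreeGroup.mk a.toList) = gv φ (FreeGroup.mk b.toList) ∧
        ∀ g, D φ P a.toList g ↔ D φ P b.toList g
      iseqv := ⟨fun _ => ⟨rfl, fun _ => Iff.rfl⟩, fun h => ⟨h.1.symm, fun g => (h.2 g).symm⟩,
        fun h h' => ⟨h.1.trans h'.1, fun g => (h.2 g).trans (h'.2 g)⟩⟩
      mul' := by
        rintro a b a' b' ⟨h, k⟩ ⟨h', k'⟩
        refine ⟨?_, fun g => ?_⟩
        · simp only [FreeMonoid.toList_mul, mk_append, map_mul]
          rw [h, h']
        · simp only [FreeMonoid.toList_mul, D_append]
          rw [k, k', h] }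
  have hle : conGen (InvRel (relators rel)) ≤ c := by
    rw [Con.conGen_le]
    intro a b hab
    cases hab with
    | reg u =>
      refine ⟨?_, fun g => ?_⟩
      · show gv φ (FreeGroup.mk (u ++ FreeGroup.invRev u ++ u)) = gv φ (FreeGroup.mk u)
        simp only [mk_append, mk_invRev, mul_inv_cancel, one_mul]
      · show D φ P (u ++ FreeGroup.invRev u ++ u) g ↔ D φ P u g
        rw [D_append, D_append, D_invRev, mk_append, mk_invRev, mul_inv_cancel, map_one, mul_one]
        tauto
    | comm u v =>
      refine ⟨?_, fun g => ?_⟩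
      · show gv φ (FreeGroup.mk ((u ++ FreeGroup.invRev u) ++ (v ++ FreeGroup.invRev v))) =
          gv φ (FreeGroup.mk ((v ++ FreeGroup.invRev v) ++ (u ++ FreeGroup.invRev u)))
        simp only [mk_append, mk_invRev, mul_inv_cancel, one_mul]
      · show D φ P ((u ++ FreeGroup.invRev u) ++ (v ++ FreeGroup.invRev v)) g ↔
          D φ P ((v ++ FreeGroup.invRev v) ++ (u ++ FreeGroup.invRev u)) g
        have e : ∀ u : List (X × Bool), D φ P (u ++ FreeGroup.invRev u) g ↔ D φ P u g := by
          intro u
          rw [D_append, D_invRev]; tauto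
        have e' : ∀ u : List (X × Bool), gv φ (FreeGroup.mk (u ++ FreeGroup.invRev u)) = 1 := by
          intro u; rw [mk_append, mk_invRev, mul_inv_cancel, map_one]
        rw [D_append (u ++ FreeGroup.invRev u), D_append (v ++ FreeGroup.invRev v), e', e',
          mul_one, e, e]
        tauto
    | rel r hr =>
      refine ⟨?_, fun g => ?_⟩
      · show gv φ (FreeGroup.mk r) = gv φ (FreeGroup.mk [])
        rw [gv_rel h1 r hr]
        exact (map_one _).symm
      · show D φ P r g ↔ g ∈ P
        rcases hr with ⟨x, rfl⟩ | ⟨p, hp, rfl⟩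
        · have e : ([(x, true), (x, false)] : List (X × Bool)) = pos [x] ++ FreeGroup.invRev (pos [x]) :=
            rfl
          rw [e, D_append, D_invRev, D_pos hP]; tauto
        · rw [D_append, gv_pos, h1 p hp, ← gv_pos, D_invRev, D_pos hP, D_pos hP]; tauto
  exact (hle ((Con.eq _).1 h)).2 g

/-- normal form -/
lemma exists_form (h2 : Complete φ rel)
    (h3 : ∀ a b : List X, ∃ c d : List X, ((a ++ c).map φ).prod = ((b ++ d).map φ).prod)
    (w : List (X × Bool)) : ∃ (u : List (X × Bool)) (a b : List X),
      sval (relators rel) w = sval (relators rel) u * sval (relators rel) (FreeGroup.invRev u) *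
        sval (relators rel) (pos a) * sval (relators rel) (FreeGroup.invRev (pos b)) := by
  induction w using List.reverseRecOn with
  | nil => exact ⟨[], [], [], rfl⟩
  | append_singleton w z ih =>
    obtain ⟨u, a, b, ih⟩ := ih
    obtain ⟨x, s⟩ := z
    cases s with
    | false =>
      refine ⟨u, a, x :: b, ?_⟩
      have e2 : FreeGroup.invRev (pos (x :: b)) = FreeGroup.invRev (pos b) ++ [(x, false)] := by
        have e1 : pos (x :: b) = [(x, true)] ++ pos b := rfl
        rw [e1, invRev_append]; rfl
      rw [e2, sval_append, ih, sval_append, mul_assoc _ _ (sval (relators rel) [(x, false)])]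
    | true =>
      obtain ⟨c, d, hcd⟩ := h3 b [x]
      have hS := sval_pos_eq h2 hcd
      rw [pos_append, pos_append, sval_append, sval_append] at hS
      -- names
      set A := sval (relators rel) (pos a) with hA
      set A' := sval (relators rel) (FreeGroup.invRev (pos a)) with hA'
      set B := sval (relators rel) (pos b) with hB
      set B' := sval (relators rel) (FreeGroup.invRev (pos b)) with hB'
      set C := sval (relators rel) (pos c) with hC
      set E := sval (relators rel) (pos d) with hE
      set E' := sval (relators rel) (FreeGroup.invRev (pos d)) with hE'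
      set U := sval (relators rel) u with hU
      set U' := sval (relators rel) (FreeGroup.invRev u) with hU'
      have hx : sval (relators rel) (pos [x]) = sval (relators rel) [(x, true)] := rfl
      set Z := sval (relators rel) [(x, true)] with hZ
      rw [hx] at hS
      have hEE : E * E' = 1 := pos_unit d
      have hAA : A * A' = 1 := pos_unit a
      have s1 : B' * Z = B' * B * C * E' := by
        calc B' * Z = B' * (Z * E) * E' := by
              rw [mul_assoc, mul_assoc, hEE, mul_one]
          _ = B' * B * C * E' := by rw [← hS]; simp only [mul_assoc]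
      have hc : A' * A * (B' * B) = B' * B * (A' * A) := by
        have := sval_comm (R := relators rel) (FreeGroup.invRev (pos a)) (FreeGroup.invRev (pos b))
        rwa [invRev_invRev', invRev_invRev'] at this
      have s2 : A * (B' * B) = A * B' * B * A' * A := by
        calc A * (B' * B) = A * A' * A * (B' * B) := by rw [hAA, one_mul]
          _ = A * (A' * A * (B' * B)) := by simp only [mul_assoc]
          _ = A * (B' * B * (A' * A)) := by rw [hc]
          _ = _ := by simp only [mul_assoc]
      -- the new idempotent is `(u u⁻¹ v) (u u⁻¹ v)⁻¹` with `v = a b⁻¹`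
      refine ⟨u ++ FreeGroup.invRev u ++ (pos a ++ FreeGroup.invRev (pos b)), a ++ c, d, ?_⟩
      have e3 : FreeGroup.invRev (u ++ FreeGroup.invRev u ++ (pos a ++ FreeGroup.invRev (pos b))) =
          (pos b ++ FreeGroup.invRev (pos a)) ++ (u ++ FreeGroup.invRev u) := by
        simp only [invRev_append, invRev_invRev', List.append_assoc]
      rw [sval_append, ih, e3, pos_append]
      simp only [sval_append]
      rw [← hA, ← hA', ← hB, ← hB', ← hC, ← hE', ← hU, ← hU']
      have hUU : U * U' * U * U' = U * U' := by
        have := sval_reg (R := relators rel) u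
        rw [← hU, ← hU'] at this
        rw [this]
      have hcU : U * U' * (A * B' * (B * A')) = A * B' * (B * A') * (U * U') := by
        have := sval_comm (R := relators rel) u (pos a ++ FreeGroup.invRev (pos b))
        simpa only [invRev_append, invRev_invRev', sval_append] using this
      calc U * U' * A * B' * Z = U * U' * A * (B' * Z) := by simp only [mul_assoc]
        _ = U * U' * (A * (B' * B)) * C * E' := by rw [s1]; simp only [mul_assoc]
        _ = (U * U') * (A * B' * B * A') * (A * C) * E' := by rw [s2]; simp only [mul_assoc]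
        _ = (U * U' * U * U') * (A * B' * B * A') * (A * C) * E' := by rw [hUU]
        _ = (U * U') * (U * U' * (A * B' * (B * A'))) * (A * C) * E' := by simp only [mul_assoc]
        _ = (U * U') * (A * B' * (B * A') * (U * U')) * (A * C) * E' := by rw [hcU]
        _ = _ := by simp only [mul_assoc]

lemma form_group {w u : List (X × Bool)} {a b : List X}
    (h : sval (relators rel) w = sval (relators rel) u * sval (relators rel) (FreeGroup.invRev u) *
        sval (relators rel) (pos a) * sval (relators rel) (FreeGroup.invRev (pos b)))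
    {K : Type} [Group K] (κ : FreeGroup X →* K)
    (hκ : ∀ r ∈ relators rel, κ (FreeGroup.mk r) = 1) :
    κ (FreeGroup.mk w) = κ (FreeGroup.mk (pos a)) * (κ (FreeGroup.mk (pos b)))⁻¹ := by
  have h' : sval (relators rel) w =
      sval (relators rel) (u ++ FreeGroup.invRev u ++ pos a ++ FreeGroup.invRev (pos b)) := h
  rw [hom_eq κ hκ h']
  simp only [mk_append, mk_invRev, mul_inv_cancel, one_mul, map_mul, map_inv]

lemma idem_of_one (h1 : ∀ p ∈ rel, (p.1.map φ).prod = (p.2.map φ).prod) (h2 : Complete φ rel)
    (h3 : ∀ a b : List X, ∃ c d : List X, ((a ++ c).map φ).prod = ((b ++ d).map φ).prod)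
    {w : List (X × Bool)} (hw : gv φ (FreeGroup.mk w) = 1) :
    sval (relators rel) w * sval (relators rel) w = sval (relators rel) w ∧
      grpVal (relators rel) w = 1 := by
  obtain ⟨u, a, b, h⟩ := exists_form h2 h3 w
  have hg := form_group h (gv φ) (gv_rel h1)
  rw [hw, gv_pos, gv_pos] at hg
  have hab : (a.map φ).prod = (b.map φ).prod := by
    rw [eq_comm, mul_inv_eq_one] at hg; exact hg
  have hS := sval_pos_eq h2 hab
  constructor
  · rw [h, hS, mul_assoc _ (sval (relators rel) (pos b)), pos_unit, mul_one]
    calc _ = (sval (relators rel) u * sval (relators rel) (FreeGroup.invRev u) *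
        sval (relators rel) u) * sval (relators rel) (FreeGroup.invRev u) := by
          simp only [mul_assoc]
      _ = _ := by rw [sval_reg]
  · have := form_group h (PresentedGroup.mk (FreeGroup.mk '' (relators rel)))
      (fun r hr => PresentedGroup.one_of_mem (Set.mem_image_of_mem _ hr))
    have e : grpVal (relators rel) w = grpVal (relators rel) (pos a) *
      (grpVal (relators rel) (pos b))⁻¹ := this
    rw [e, grpVal_eq hS, mul_inv_cancel]

theorem grpVal_eq_one_iff (h1 : ∀ p ∈ rel, (p.1.map φ).prod = (p.2.map φ).prod)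
    (h2 : Complete φ rel)
    (h3 : ∀ a b : List X, ∃ c d : List X, ((a ++ c).map φ).prod = ((b ++ d).map φ).prod)
    (w : List (X × Bool)) : grpVal (relators rel) w = 1 ↔ gv φ (FreeGroup.mk w) = 1 := by
  refine ⟨fun h => ?_, fun h => (idem_of_one h1 h2 h3 h).2⟩
  have hl : ∀ r ∈ FreeGroup.mk '' (relators rel), FreeGroup.lift φ r = 1 := by
    rintro _ ⟨r, hr, rfl⟩
    exact gv_rel h1 r hr
  have e : PresentedGroup.toGroup hl (grpVal (relators rel) w) = gv φ (FreeGroup.mk w) := rfl
  rw [← e, h, map_one]

theorem eUnitary (h1 : ∀ p ∈ rel, (p.1.map φ).prod = (p.2.map φ).prod) (h2 : Complete φ rel)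
    (h3 : ∀ a b : List X, ∃ c d : List X, ((a ++ c).map φ).prod = ((b ++ d).map φ).prod) :
    EUnitary (InvMon (relators rel)) := by
  rintro e s he ⟨f, hf, hes⟩
  obtain ⟨w, rfl⟩ := sval_surj s
  obtain ⟨v, rfl⟩ := sval_surj f
  obtain ⟨x, rfl⟩ := sval_surj e
  have hk := gv_rel h1
  have k1 : gv φ (FreeGroup.mk x) = 1 := by
    have := hom_eq (gv φ) hk (w := x ++ x) (w' := x) he
    rw [mk_append, map_mul] at this
    exact mul_eq_left.1 this
  have k2 : gv φ (FreeGroup.mk v) = 1 := by
    have := hom_eq (gv φ) hk (w := v ++ v) (w' := v) hf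
    rw [mk_append, map_mul] at this
    exact mul_eq_left.1 this
  have k3 : gv φ (FreeGroup.mk w) = 1 := by
    have := hom_eq (gv φ) hk (w := x) (w' := v ++ w) hes
    rw [mk_append, map_mul, k1, k2, one_mul] at this
    exact this.symm
  exact (idem_of_one h1 h2 h3 k3).1

/-- the values of the positive words -/
def posVals (φ : X → G) : Set G := {g | ∃ a : List X, (a.map φ).prod = g}

lemma posVals_mul : ∀ g ∈ posVals φ, ∀ x, g * φ x ∈ posVals φ := by
  rintro _ ⟨a, rfl⟩ x
  exact ⟨a ++ [x], by simp⟩

lemma one_mem_posVals : (1 : G) ∈ posVals φ := ⟨[], rfl⟩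

lemma posVals_of_unit (h1 : ∀ p ∈ rel, (p.1.map φ).prod = (p.2.map φ).prod)
    {w : List (X × Bool)} (h : ∃ s' : InvMon (relators rel), sval (relators rel) w * s' = 1) :
    gv φ (FreeGroup.mk w) ∈ posVals φ := by
  obtain ⟨s', h⟩ := h
  obtain ⟨v, rfl⟩ := sval_surj s'
  have := (D_eq (P := posVals φ) h1 posVals_mul (w := w ++ v) (w' := []) h 1).2 one_mem_posVals
  rw [D_append] at this
  have := D_last this.1
  rwa [one_mul] at this

lemma grpVal_inj (h1 : ∀ p ∈ rel, (p.1.map φ).prod = (p.2.map φ).prod)
    (h2 : Complete φ rel)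
    (h3 : ∀ a b : List X, ∃ c d : List X, ((a ++ c).map φ).prod = ((b ++ d).map φ).prod)
    {w v : List (X × Bool)} (h : gv φ (FreeGroup.mk w) = gv φ (FreeGroup.mk v)) :
    grpVal (relators rel) w = grpVal (relators rel) v := by
  have : grpVal (relators rel) (w ++ FreeGroup.invRev v) = 1 := by
    rw [grpVal_eq_one_iff h1 h2 h3, mk_append, mk_invRev, map_mul, map_inv, h, mul_inv_cancel]
  rw [grpVal_append, grpVal_invRev, mul_inv_eq_one] at this
  exact this

theorem prefixMonoid_eq (h1 : ∀ p ∈ rel, (p.1.map φ).prod = (p.2.map φ).prod)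
    (h2 : Complete φ rel)
    (h3 : ∀ a b : List X, ∃ c d : List X, ((a ++ c).map φ).prod = ((b ++ d).map φ).prod) :
    prefixMonoid (relators rel) = {g | ∃ a : List X, grpVal (relators rel) (pos a) = g} := by
  ext g
  constructor
  · rintro ⟨w, hw, rfl⟩
    obtain ⟨a, ha⟩ := posVals_of_unit h1 hw
    refine ⟨a, grpVal_inj h1 h2 h3 ?_⟩
    rw [gv_pos, ha]
  · rintro ⟨a, rfl⟩
    exact ⟨pos a, ⟨_, pos_unit a⟩, rfl⟩

/-- A subset `P` of a monoid is right reversible: `aP ∩ bP ≠ ∅` for all `a, b ∈ P`. -/
def RightReversible {M : Type} [Mul M] (P : Set M) : Prop :=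
  ∀ a ∈ P, ∀ b ∈ P, ∃ c ∈ P, ∃ d ∈ P, a * c = b * d

theorem rightReversible (h1 : ∀ p ∈ rel, (p.1.map φ).prod = (p.2.map φ).prod)
    (h2 : Complete φ rel)
    (h3 : ∀ a b : List X, ∃ c d : List X, ((a ++ c).map φ).prod = ((b ++ d).map φ).prod) :
    RightReversible (prefixMonoid (relators rel)) := by
  rw [prefixMonoid_eq h1 h2 h3]
  rintro _ ⟨a, rfl⟩ _ ⟨b, rfl⟩
  obtain ⟨c, d, h⟩ := h3 a b
  refine ⟨_, ⟨c, rfl⟩, _, ⟨d, rfl⟩, ?_⟩
  rw [← grpVal_append, ← grpVal_append, ← pos_append, ← pos_append]
  refine grpVal_inj h1 h2 h3 ?_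
  rw [gv_pos, gv_pos, h]

/-- The words `a b⁻¹` that are right units are those with value in `P`. -/
theorem unit_iff (h1 : ∀ p ∈ rel, (p.1.map φ).prod = (p.2.map φ).prod) (h2 : Complete φ rel)
    (a b : List X) :
    sval (relators rel) ((pos a ++ FreeGroup.invRev (pos b)) ++ (pos b ++ FreeGroup.invRev (pos a))) =
      sval (relators rel) [] ↔ (a.map φ).prod * ((b.map φ).prod)⁻¹ ∈ posVals φ := by
  constructor
  · intro h
    have := posVals_of_unit h1 (w := pos a ++ FreeGroup.invRev (pos b))
      ⟨sval (relators rel) (pos b ++ FreeGroup.invRev (pos a)), h⟩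
    rwa [mk_append, mk_invRev, map_mul, map_inv, gv_pos, gv_pos] at this
  · rintro ⟨c, hc⟩
    have hac : (a.map φ).prod = ((c ++ b).map φ).prod := by
      rw [List.map_append, List.prod_append, hc, inv_mul_cancel_right]
    have hS := sval_pos_eq h2 hac
    rw [pos_append, sval_append] at hS
    have hB : sval (relators rel) (pos b) * sval (relators rel) (FreeGroup.invRev (pos b)) = 1 :=
      pos_unit b
    have hA := pos_unit (rel := rel) a
    rw [sval_nil]
    simp only [sval_append]
    calc _ = sval (relators rel) (pos c) * (sval (relators rel) (pos b) *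
        sval (relators rel) (FreeGroup.invRev (pos b))) * (sval (relators rel) (pos b) *
        sval (relators rel) (FreeGroup.invRev (pos a))) := by rw [hS]; simp only [mul_assoc]
      _ = sval (relators rel) (pos c) * sval (relators rel) (pos b) *
        sval (relators rel) (FreeGroup.invRev (pos a)) := by rw [hB, mul_one]; simp only [mul_assoc]
      _ = 1 := by rw [← hS, hA]

end main

end Pool.Agent.X232.RR
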