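import Pool.Agent.X232.RR.Gen
import Pool.Agent.Helper270.WPB
import Pool.Agent.H715R3.MedvA

/-!
A finitely generated right reversible submonoid of `(F × F) × ℤ` with undecidable membership
problem, and positive relations for it.
-/

set_option autoImplicit false

namespace Pool.Agent.X232.RR

variable {m : ℕ} (R : Finset (FreeGroup (Fin m)))

/-- the letters: `t`, the letters `y` (side, generator, sign), and the letters for the generators
of the subgroup -/
abbrev Y : Type := Option ((Bool × Fin m × Bool) ⊕ ((Fin m ⊕ {r // r ∈ R}) × Bool))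

/-- the group `(F × F) × ℤ` -/
abbrev GG (m : ℕ) : Type := (FreeGroup (Fin m) × FreeGroup (Fin m)) × Multiplicative ℤ

/-- the generators of `F × F` -/
def sg : Bool × Fin m × Bool → FreeGroup (Fin m) × FreeGroup (Fin m)
  | (false, p) => (FreeGroup.mk [p], 1)
  | (true, p) => (1, FreeGroup.mk [p])

/-- words for the generators of the subgroup -/
def hw : (Fin m ⊕ {r // r ∈ R}) × Bool → List (Bool × Fin m × Bool)
  | (Sum.inl i, b) => [(false, i, b), (true, i, b)]
  | (Sum.inr r, true) => (FreeGroup.toWord r.1).map fun p => (false, p)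
  | (Sum.inr r, false) => (FreeGroup.toWord (r.1)⁻¹).map fun p => (false, p)

/-- the values of the letters -/
def ph : Y R → GG m
  | none => (1, Multiplicative.ofAdd 1)
  | some (Sum.inl s) => (sg s, Multiplicative.ofAdd 1)
  | some (Sum.inr k) => (((hw R k).map sg).prod, 1)

/-- the degree -/
def deg : Y R → ℕ
  | none => 1
  | some (Sum.inl _) => 1
  | some (Sum.inr _) => 0

/-- the letter `y` -/
def yy (s : Bool × Fin m × Bool) : Y R := some (Sum.inl s)

/-- the relations -/
def relT : Y R ⊕ (Bool × Fin m × Bool) ⊕ (Fin m × Fin m) ⊕ ((Fin m ⊕ {r // r ∈ R}) × Bool) →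
    List (Y R) × List (Y R)
  | Sum.inl x => ([none, x], [x, none])
  | Sum.inr (Sum.inl (s, i, b)) => ([yy R (s, i, b), yy R (s, i, !b)], [none, none])
  | Sum.inr (Sum.inr (Sum.inl (i, j))) => ([yy R (false, i, true), yy R (true, j, true)],
      [yy R (true, j, true), yy R (false, i, true)])
  | Sum.inr (Sum.inr (Sum.inr k)) => (some (Sum.inr k) :: List.replicate (hw R k).length none,
      (hw R k).map (yy R))

/-- the set of relations -/
def relY : Set (List (Y R) × List (Y R)) := Set.range (relT R)

lemma relY_finite : (relY R).Finite := Set.finite_range _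

lemma prod_sg_map (l : List (Fin m × Bool)) (b : Bool) :
    ((l.map fun p => (b, p)).map sg).prod =
      if b then (1, FreeGroup.mk l) else (FreeGroup.mk l, 1) := by
  induction l with
  | nil => cases b <;> rfl
  | cons p l ih =>
    rw [List.map_cons, List.map_cons, List.prod_cons, ih]
    have e : FreeGroup.mk (p :: l) = FreeGroup.mk [p] * FreeGroup.mk l := mk_append [p] l
    cases b <;> simp [sg, e, -FreeGroup.mul_mk]

lemma prod_ph_yy (l : List (Bool × Fin m × Bool)) :
    ((l.map (yy R)).map (ph R)).prod = ((l.map sg).prod, Multiplicative.ofAdd (l.length : ℤ)) := by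
  induction l with
  | nil => rfl
  | cons p l ih =>
    rw [List.map_cons, List.map_cons, List.prod_cons, ih, List.map_cons, List.prod_cons]
    simp only [yy, ph, Prod.mk_mul_mk, List.length_cons, ← ofAdd_add]
    congr 2
    push_cast; ring

lemma prod_ph_rep (n : ℕ) : ((List.replicate n (none : Y R)).map (ph R)).prod =
    (1, Multiplicative.ofAdd (n : ℤ)) := by
  induction n with
  | zero => rfl
  | succ n ih =>
    rw [List.replicate_succ, List.map_cons, List.prod_cons, ih]
    simp only [ph, Prod.mk_mul_mk, one_mul, ← ofAdd_add]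
    congr 2
    push_cast; ring

lemma prod_ph_snd (a : List (Y R)) : ((a.map (ph R)).prod).2 =
    Multiplicative.ofAdd (((a.map (deg R)).sum : ℕ) : ℤ) := by
  induction a with
  | nil => rfl
  | cons x a ih =>
    rw [List.map_cons, List.prod_cons, List.map_cons, List.sum_cons, Prod.snd_mul, ih]
    rcases x with _ | x | x <;> simp [ph, deg, ofAdd_add]

lemma sound : ∀ p ∈ relY R, (p.1.map (ph R)).prod = (p.2.map (ph R)).prod := by
  rintro _ ⟨x | ⟨s, i, b⟩ | ⟨i, j⟩ | k, rfl⟩
  · -- `t` is central
    simp only [relT, List.map_cons, List.map_nil, List.prod_cons, List.prod_nil, mul_one]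
    refine Prod.ext ?_ ?_
    · simp [ph]
    · simp [ph, mul_comm]
  · simp only [relT, List.map_cons, List.map_nil, List.prod_cons, List.prod_nil, mul_one]
    have e : FreeGroup.mk [(i, b)] * FreeGroup.mk [(i, !b)] = (1 : FreeGroup (Fin m)) := by
      have : FreeGroup.mk [(i, !b)] = (FreeGroup.mk [(i, b)])⁻¹ := by
        rw [FreeGroup.inv_mk]; rfl
      rw [this, mul_inv_cancel]
    cases s <;> simp [yy, ph, sg, e, -FreeGroup.mul_mk]
  · simp [relT, yy, ph, sg]
  · simp only [relT, List.map_cons, List.prod_cons]
    rw [prod_ph_yy, prod_ph_rep]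
    simp [ph]

section complete

variable {M : Type} [Monoid M] (f : Y R → M)

lemma comm_t (hc : ∀ x, f none * f x = f x * f none) (a : List (Y R)) (n : ℕ) :
    f none ^ n * (a.map f).prod = (a.map f).prod * f none ^ n := by
  have h1 : ∀ a : List (Y R), f none * (a.map f).prod = (a.map f).prod * f none := by
    intro a
    induction a with
    | nil => simp
    | cons x a ih => rw [List.map_cons, List.prod_cons, ← mul_assoc, hc, mul_assoc, ih, mul_assoc]
  have h2 : Commute (f none) (a.map f).prod := h1 a
  exact (h2.pow_left n).eq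

/-- `a ≈ b`: equal up to powers of `t` of the right size -/
def apx (a b : List (Y R)) : Prop :=
  ∃ p q : ℕ, (a.map (deg R)).sum + p = (b.map (deg R)).sum + q ∧
    (a.map f).prod * f none ^ p = (b.map f).prod * f none ^ q

/-- the congruence `≈` -/
def apxCon (hc : ∀ x, f none * f x = f x * f none) : Con (FreeMonoid (Y R)) where
  r a b := apx R f a.toList b.toList
  iseqv := by
    refine ⟨fun a => ⟨0, 0, rfl, rfl⟩, ?_, ?_⟩
    · rintro a b ⟨p, q, h, h'⟩
      exact ⟨q, p, h.symm, h'.symm⟩
    · rintro a b c ⟨p, q, h, h'⟩ ⟨p', q', k, k'⟩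
      refine ⟨p + p', q' + q, by omega, ?_⟩
      rw [pow_add, ← mul_assoc, h', mul_assoc, ← pow_add, add_comm q p', pow_add, ← mul_assoc, k',
        mul_assoc, ← pow_add]
  mul' := by
    rintro a b c d ⟨p, q, h, h'⟩ ⟨p', q', k, k'⟩
    refine ⟨p + p', q + q', ?_, ?_⟩
    · simp only [FreeMonoid.toList_mul, List.map_append, List.sum_append]; omega
    · simp only [FreeMonoid.toList_mul, List.map_append, List.prod_append]
      calc (a.toList.map f).prod * (c.toList.map f).prod * f none ^ (p + p')
          = (a.toList.map f).prod * (f none ^ p * (c.toList.map f).prod) * f none ^ p' := by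
            rw [comm_t R f hc, pow_add]; simp only [mul_assoc]
        _ = ((a.toList.map f).prod * f none ^ p) * ((c.toList.map f).prod * f none ^ p') := by
            simp only [mul_assoc]
        _ = ((b.toList.map f).prod * f none ^ q) * ((d.toList.map f).prod * f none ^ q') := by
            rw [h', k']
        _ = (b.toList.map f).prod * (f none ^ q * (d.toList.map f).prod) * f none ^ q' := by
            simp only [mul_assoc]
        _ = _ := by rw [comm_t R f hc, pow_add]; simp only [mul_assoc]

end complete

theorem complete : Complete (ph R) (relY R) := by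
  intro M _ f hf hrel a b hab
  have hc : ∀ x, f none * f x = f x * f none := by
    intro x
    simpa [relT] using hrel _ ⟨Sum.inl x, rfl⟩
  let c := apxCon R f hc
  let q : FreeMonoid (Y R) →* c.Quotient := c.mk'
  have hq : ∀ a b : List (Y R), q (FreeMonoid.ofList a) = q (FreeMonoid.ofList b) ↔ apx R f a b :=
    fun a b => Con.eq c
  have hone : q (FreeMonoid.ofList []) = 1 := map_one q
  have qt : q (FreeMonoid.ofList [none]) = 1 := by
    rw [← hone, hq]
    exact ⟨0, 1, rfl, by simp⟩
  have qinv : ∀ s i b, q (FreeMonoid.ofList [yy R (s, i, b)]) *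
      q (FreeMonoid.ofList [yy R (s, i, !b)]) = 1 := by
    intro s i b
    rw [← map_mul, ← hone]
    refine (hq [yy R (s, i, b), yy R (s, i, !b)] []).2 ⟨0, 2, rfl, ?_⟩
    have := hrel _ ⟨Sum.inr (Sum.inl (s, i, b)), rfl⟩
    simp only [relT, List.map_cons, List.map_nil, List.prod_cons, List.prod_nil, mul_one] at this
    simp [this, pow_two]
  let u : Bool → Fin m → (c.Quotient)ˣ := fun s i =>
    ⟨q (FreeMonoid.ofList [yy R (s, i, true)]), q (FreeMonoid.ofList [yy R (s, i, false)]),
      qinv s i true, qinv s i false⟩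
  have hu : ∀ i j, Commute (u false i) (u true j) := by
    intro i j
    refine Units.ext ?_
    show q (FreeMonoid.ofList [yy R (false, i, true)]) * q (FreeMonoid.ofList [yy R (true, j, true)]) =
      q (FreeMonoid.ofList [yy R (true, j, true)]) * q (FreeMonoid.ofList [yy R (false, i, true)])
    rw [← map_mul q, ← map_mul q]
    refine (hq [yy R (false, i, true), yy R (true, j, true)]
      [yy R (true, j, true), yy R (false, i, true)]).2 ⟨0, 0, rfl, ?_⟩
    have := hrel _ ⟨Sum.inr (Sum.inr (Sum.inl (i, j))), rfl⟩
    simp only [relT, List.map_cons, List.map_nil, List.prod_cons, List.prod_nil, mul_one] at this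
    simp [this]
  let ψ : Bool → FreeGroup (Fin m) →* (c.Quotient)ˣ := fun s => FreeGroup.lift (u s)
  have hψ0 : ∀ x j, Commute (ψ false x) (u true j) := by
    intro x j
    induction x using FreeGroup.induction_on with
    | C1 => rw [map_one]; exact Commute.one_left _
    | of i => simpa [ψ] using hu i j
    | inv_of i ih => rw [map_inv]; exact ih.inv_left
    | mul x y hx hy => rw [map_mul]; exact hx.mul_left hy
  have hψ : ∀ x y, Commute (ψ false x) (ψ true y) := by
    intro x y
    induction y using FreeGroup.induction_on with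
    | C1 => rw [map_one]; exact Commute.one_right _
    | of j => simpa [ψ] using hψ0 x j
    | inv_of j ih => rw [map_inv]; exact ih.inv_right
    | mul y z hy hz => rw [map_mul]; exact hy.mul_right hz
  let Ψ : FreeGroup (Fin m) × FreeGroup (Fin m) →* (c.Quotient)ˣ :=
    MonoidHom.noncommCoprod (ψ false) (ψ true) hψ
  have hΨ : ∀ x y, Ψ (x, y) = ψ false x * ψ true y := fun x y => rfl
  have hsg : ∀ s, q (FreeMonoid.ofList [yy R s]) = (Ψ (sg s) : c.Quotient) := by
    rintro ⟨s, i, b⟩
    have e : ∀ s b, ((ψ s (FreeGroup.mk [(i, b)]) : (c.Quotient)ˣ) : c.Quotient) =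
        q (FreeMonoid.ofList [yy R (s, i, b)]) := by
      intro s b
      cases b
      · simp only [ψ, FreeGroup.lift_mk]
        simp only [List.map_cons, List.map_nil, List.prod_cons, List.prod_nil, mul_one, cond_false]
        rfl
      · simp only [ψ, FreeGroup.lift_mk]
        simp only [List.map_cons, List.map_nil, List.prod_cons, List.prod_nil, mul_one, cond_true]
        rfl
    cases s
    · rw [sg, hΨ, map_one, mul_one, e]
    · rw [sg, hΨ, map_one, one_mul, e]
  have hyl : ∀ l : List (Bool × Fin m × Bool), q (FreeMonoid.ofList (l.map (yy R))) =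
      (Ψ ((l.map sg).prod) : c.Quotient) := by
    intro l
    induction l with
    | nil => rw [List.map_nil, hone]; simp
    | cons s l ih =>
      have e : FreeMonoid.ofList ((s :: l).map (yy R)) =
        FreeMonoid.ofList [yy R s] * FreeMonoid.ofList (l.map (yy R)) := rfl
      rw [e, map_mul, hsg, ih, List.map_cons, List.prod_cons, map_mul, Units.val_mul]
  have key : ∀ a : List (Y R), q (FreeMonoid.ofList a) = (Ψ ((a.map (ph R)).prod.1) : c.Quotient) := by
    intro a
    induction a with
    | nil => rw [hone]; simp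
    | cons x a ih =>
      have e : FreeMonoid.ofList (x :: a) = FreeMonoid.ofList [x] * FreeMonoid.ofList a := rfl
      rw [e, map_mul, ih, List.map_cons, List.prod_cons, Prod.fst_mul, map_mul, Units.val_mul]
      congr 1
      rcases x with _ | s | k
      · rw [qt]; simp [ph]
      · exact hsg s
      · have h1 : q (FreeMonoid.ofList [some (Sum.inr k)]) =
            q (FreeMonoid.ofList ((hw R k).map (yy R))) := by
          rw [hq]
          refine ⟨(hw R k).length, 0, ?_, ?_⟩
          · have : ∀ l : List (Bool × Fin m × Bool), ((l.map (yy R)).map (deg R)).sum = l.length := by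
              intro l
              induction l with
              | nil => rfl
              | cons s l ih => rw [List.map_cons, List.map_cons, List.sum_cons, ih]; simp [yy, deg, add_comm]
            rw [this]; simp [deg]
          · have := hrel _ ⟨Sum.inr (Sum.inr (Sum.inr k)), rfl⟩
            simp only [relT, List.map_cons, List.prod_cons, List.map_replicate,
              List.prod_replicate] at this
            simp only [List.map_cons, List.map_nil, List.prod_cons, List.prod_nil, mul_one, pow_zero]
            exact this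
        rw [h1, hyl]; rfl
  have h1 : apx R f a b := by rw [← hq, key, key, hab]
  obtain ⟨p, p', hd, he⟩ := h1
  have hdeg : (a.map (deg R)).sum = (b.map (deg R)).sum := by
    have := prod_ph_snd R a
    rw [hab, prod_ph_snd] at this
    have := Multiplicative.ofAdd.injective this
    exact_mod_cast this.symm
  have hpp : p = p' := by omega
  subst hpp
  obtain ⟨T', hT'⟩ := hf none
  have hTp : ∀ n, f none ^ n * T' ^ n = 1 := by
    intro n
    induction n with
    | zero => simp
    | succ n ih =>
      rw [pow_succ, pow_succ', mul_assoc, ← mul_assoc (f none) T', hT', one_mul, ih]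
  calc (a.map f).prod = (a.map f).prod * f none ^ p * T' ^ p := by rw [mul_assoc, hTp, mul_one]
    _ = (b.map f).prod * f none ^ p * T' ^ p := by rw [he]
    _ = _ := by rw [mul_assoc, hTp, mul_one]

/-- right reversibility -/
theorem rev (a b : List (Y R)) :
    ∃ c d : List (Y R), ((a ++ c).map (ph R)).prod = ((b ++ d).map (ph R)).prod := by
  set g := (a.map (ph R)).prod with hg
  set g' := (b.map (ph R)).prod with hg'
  set n := (a.map (deg R)).sum with hn
  set n' := (b.map (deg R)).sum with hn'
  have hg2 : g.2 = Multiplicative.ofAdd (n : ℤ) := prod_ph_snd R a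
  have hg2' : g'.2 = Multiplicative.ofAdd (n' : ℤ) := prod_ph_snd R b
  obtain ⟨l, hl⟩ : ∃ l : List (Bool × Fin m × Bool), (l.map sg).prod = g.1⁻¹ * g'.1 := by
    refine ⟨((g.1⁻¹ * g'.1).1.toWord.map fun p => (false, p)) ++
      ((g.1⁻¹ * g'.1).2.toWord.map fun p => (true, p)), ?_⟩
    rw [List.map_append, List.prod_append, prod_sg_map, prod_sg_map, FreeGroup.mk_toWord,
      FreeGroup.mk_toWord]
    simp
    rfl
  refine ⟨l.map (yy R) ++ List.replicate n' none, List.replicate (l.length + n) none, ?_⟩
  rw [List.map_append, List.map_append, List.map_append, List.prod_append, List.prod_append,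
    List.prod_append, prod_ph_rep, prod_ph_rep, prod_ph_yy, hl, ← hg, ← hg']
  refine Prod.ext ?_ ?_
  · simp
  · simp only [Prod.snd_mul, hg2, hg2', ← ofAdd_add]
    congr 1
    push_cast; ring

/-! ### Membership -/

/-- the fibre product -/
def HH : Subgroup (FreeGroup (Fin m) × FreeGroup (Fin m)) :=
  MonoidHom.eqLocus
    ((QuotientGroup.mk' (Subgroup.normalClosure (R : Set (FreeGroup (Fin m))))).comp
      (MonoidHom.fst _ _))
    ((QuotientGroup.mk' (Subgroup.normalClosure (R : Set (FreeGroup (Fin m))))).comp
      (MonoidHom.snd _ _))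

lemma mem_HH (x y : FreeGroup (Fin m)) :
    (x, y) ∈ HH R ↔ x⁻¹ * y ∈ Subgroup.normalClosure (R : Set (FreeGroup (Fin m))) := by
  rw [← QuotientGroup.eq]; rfl

lemma hval_true (r : {r // r ∈ R}) : ((hw R (Sum.inr r, true)).map sg).prod = (r.1, 1) := by
  rw [hw, prod_sg_map, FreeGroup.mk_toWord]; rfl

lemma hval_false (r : {r // r ∈ R}) : ((hw R (Sum.inr r, false)).map sg).prod = ((r.1)⁻¹, 1) := by
  rw [hw, prod_sg_map, FreeGroup.mk_toWord]; rfl

lemma hval_inl (i : Fin m) (b : Bool) : ((hw R (Sum.inl i, b)).map sg).prod =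
    (FreeGroup.mk [(i, b)], FreeGroup.mk [(i, b)]) := by
  simp [hw, sg]

lemma hval_mem (k : (Fin m ⊕ {r // r ∈ R}) × Bool) : ((hw R k).map sg).prod ∈ HH R := by
  rcases k with ⟨i | r, b⟩
  · rw [hval_inl, mem_HH, inv_mul_cancel]; exact one_mem _
  · have hr : r.1 ∈ Subgroup.normalClosure (R : Set (FreeGroup (Fin m))) :=
      Subgroup.subset_normalClosure r.2
    cases b
    · rw [hval_false, mem_HH, inv_inv, mul_one]; exact hr
    · rw [hval_true, mem_HH, mul_one]; exact inv_mem hr

lemma mem_HH_of_deg (a : List (Y R)) (h : (a.map (deg R)).sum = 0) :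
    ((a.map (ph R)).prod).1 ∈ HH R := by
  induction a with
  | nil => exact one_mem _
  | cons x a ih =>
    rw [List.map_cons, List.sum_cons] at h
    rw [List.map_cons, List.prod_cons, Prod.fst_mul]
    refine mul_mem ?_ (ih (by omega))
    rcases x with _ | x | k
    · simp [deg] at h
    · simp [deg] at h
    · exact hval_mem R k

/-- the positive values of degree zero -/
def K0 : Submonoid (FreeGroup (Fin m) × FreeGroup (Fin m)) where
  carrier := {g | ∃ a : List (Y R), (a.map (ph R)).prod = (g, 1)}
  one_mem' := ⟨[], rfl⟩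
  mul_mem' := by
    rintro g h ⟨a, ha⟩ ⟨b, hb⟩
    refine ⟨a ++ b, ?_⟩
    rw [List.map_append, List.prod_append, ha, hb]; simp

lemma hval_K0 (k : (Fin m ⊕ {r // r ∈ R}) × Bool) : ((hw R k).map sg).prod ∈ K0 R :=
  ⟨[some (Sum.inr k)], by simp [ph]⟩

/-- the subgroup generated by the values of the letters `h` -/
def CC : Subgroup (FreeGroup (Fin m) × FreeGroup (Fin m)) :=
  Subgroup.closure (Set.range fun k : Fin m ⊕ {r // r ∈ R} => ((hw R (k, true)).map sg).prod)

lemma CC_le : (CC R).toSubmonoid ≤ K0 R := by
  rw [CC, Subgroup.closure_toSubmonoid, Submonoid.closure_le]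
  rintro g (⟨k, rfl⟩ | ⟨k, hk⟩)
  · exact hval_K0 R _
  · have : g = ((hw R (k, false)).map sg).prod := by
      rw [← inv_inv g, ← hk]
      rcases k with i | r
      · show (((hw R (Sum.inl i, true)).map sg).prod)⁻¹ = _
        rw [hval_inl, hval_inl, Prod.inv_mk, FreeGroup.inv_mk]; rfl
      · show (((hw R (Sum.inr r, true)).map sg).prod)⁻¹ = _
        rw [hval_true, hval_false, Prod.inv_mk, inv_one]
    rw [this]
    exact hval_K0 R _

lemma diag_CC (x : FreeGroup (Fin m)) : (x, x) ∈ CC R := by
  induction x using FreeGroup.induction_on with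
  | C1 => exact one_mem _
  | of i =>
    have := Subgroup.subset_closure (k := Set.range fun k : Fin m ⊕ {r // r ∈ R} =>
      ((hw R (k, true)).map sg).prod) ⟨Sum.inl i, rfl⟩
    simp only [hval_inl] at this
    exact this
  | inv_of i ih => exact inv_mem ih
  | mul x y hx hy => exact mul_mem hx hy

lemma left_CC {n : FreeGroup (Fin m)} (hn : n ∈ Subgroup.normalClosure (R : Set (FreeGroup (Fin m)))) :
    (n, 1) ∈ CC R := by
  let N' : Subgroup (FreeGroup (Fin m)) := (CC R).comap (MonoidHom.inl _ _)
  have hN' : N'.Normal := by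
    refine ⟨fun n hn g => ?_⟩
    have h1 : (n, (1 : FreeGroup (Fin m))) ∈ CC R := hn
    have h2 := mul_mem (mul_mem (diag_CC R g) h1) (inv_mem (diag_CC R g))
    have h3 : ((g, g) * (n, (1 : FreeGroup (Fin m))) * (g, g)⁻¹) = (g * n * g⁻¹, 1) := by
      simp
    rw [h3] at h2
    exact h2
  have hle : Subgroup.normalClosure (R : Set (FreeGroup (Fin m))) ≤ N' := by
    refine Subgroup.normalClosure_le_normal ?_
    intro r hr
    have := Subgroup.subset_closure (k := Set.range fun k : Fin m ⊕ {r // r ∈ R} =>
      ((hw R (k, true)).map sg).prod) ⟨Sum.inr ⟨r, hr⟩, rfl⟩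
    simp only [hval_true] at this
    exact this
  exact hle hn

theorem mem_posVals_iff (w : FreeGroup (Fin m)) : (((1, w), 1) : GG m) ∈ posVals (ph R) ↔
    w ∈ Subgroup.normalClosure (R : Set (FreeGroup (Fin m))) := by
  constructor
  · rintro ⟨a, ha⟩
    have h1 := prod_ph_snd R a
    rw [ha] at h1
    have h2 : (a.map (deg R)).sum = 0 := by
      have := Multiplicative.ofAdd.injective (show Multiplicative.ofAdd (0 : ℤ) = _ from h1)
      exact_mod_cast this.symm
    have h3 := mem_HH_of_deg R a h2
    rw [ha] at h3
    have := (mem_HH R 1 w).1 h3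
    simpa using this
  · intro hw
    have h1 : ((1 : FreeGroup (Fin m)), w) ∈ CC R := by
      have h2 := mul_mem (diag_CC R w) (left_CC R (inv_mem hw))
      simpa using h2
    exact CC_le R h1

end Pool.Agent.X232.RR
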